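import Mathlib
import Pool.Agent.Lib.MP_0a1b52_lc_BAND.Subcube

/-!
Average-case lower bounds for the clique function, for circuits in which the non-monotone part is
limited.

A `Circuit (EdgeVar n) s` has `s` gates, each of which is an AND gate, an OR gate (of unbounded
fan-in), or a special gate, which computes an arbitrary Boolean function of its wires (so a NOT
gate is a special gate with one wire). A module is the set `J` of the wires feeding some special
gate; several special gates fed by the same wires form one module. `D.numDep T J` is the number of
wires in `J` whose value depends on the variables in `T`, and `D.weight T` is the sum, over all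
chains of modules (sets of modules any two of which are joined by a path in the circuit), of the
products of the numbers `D.numDep T J`. For a circuit all of whose special gates are NOT gates, it
is at most the number of sets of negated wires which lie on one path.

The theorem gives, for every nonempty set `T` of variables, a graph `H` and two families of graphs
which have the same edges as `H` outside `T` (`AgreeOutside`), with and without a clique of more
than `√n` vertices, which no small circuit can distinguish with an advantage exceeding
`D.weight T / |T|`, up to a factor which is polylogarithmic.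
-/

namespace Pool.Agent.Results.MP_0a1b52_lc.AverageCase

open Pool.Agent.CliqueModules

/-- There is a constant `C` such that, for all `n` and `S` with `C (log₂ (n S) + 1) ^ 8 ≤ n` and
every nonempty set `T` of variables, there are a graph `H`, a family `P` of graphs with a clique of
more than `√n` vertices and a family `Q` of graphs without one, all with the same edges as `H`
outside `T`, such that every circuit `D` with at most `S` gates satisfies
`(Pr[D accepts P] - Pr[D accepts Q]) |T| ≤ C · weight(T) · (log₂ (n S) + 1) ^ 8`. -/
theorem result : ∃ C : ℕ, ∀ n S : ℕ, C * (Nat.log 2 (n * S) + 1) ^ 8 ≤ n →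
    ∀ T : Finset (EdgeVar n), T.Nonempty →
    ∃ (H : SimpleGraph (Fin n)) (N : ℕ) (P Q : Fin N → SimpleGraph (Fin n)),
      0 < N ∧ (∀ i, HasClique (P i)) ∧ (∀ i, ¬ HasClique (Q i)) ∧
      (∀ i, AgreeOutside T (P i) H) ∧ (∀ i, AgreeOutside T (Q i) H) ∧
      ∀ s ≤ S, ∀ D : Circuit (EdgeVar n) s,
        (D.acceptProb P - D.acceptProb Q) * T.card ≤
          C * D.weight T * (Nat.log 2 (n * S) + 1) ^ 8 :=
  main_subcube

/-- The weight is at most the product of `1 + numDep T J` over all modules `J`. -/
theorem weight_le_prod {V : Type} [Fintype V] {s : ℕ} (D : Circuit V s) (T : Finset V) :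
    D.weight T ≤ ∏ J ∈ D.modules, (1 + D.numDep T J) := by
  classical
  rw [Finset.prod_one_add]
  unfold Circuit.weight Circuit.chains
  exact Finset.sum_le_sum_of_subset (Finset.filter_subset _ _)

/-- The worst-case consequence. -/
theorem worst_case : ∃ C : ℕ, ∀ (n s : ℕ) (D : Circuit (EdgeVar n) s), D.ComputesClique →
    C * (Nat.log 2 (n * s) + 1) ^ 8 ≤ n → ∀ T : Finset (EdgeVar n),
    T.card ≤ C * D.weight T * (Nat.log 2 (n * s) + 1) ^ 8 := by
  classical
  obtain ⟨C, hC⟩ := result
  refine ⟨C, fun n s D hD hn T => ?_⟩
  rcases T.eq_empty_or_nonempty with rfl | hT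
  · simp
  obtain ⟨H, N, P, Q, hN, hP, hQ, -, -, h⟩ := hC n s hn T hT
  have hacc : ∀ G : SimpleGraph (Fin n), D.Accepts G ↔ HasClique G := by
    intro G
    obtain ⟨val, hval, hout⟩ := hD G
    constructor
    · rintro ⟨val', hval', h'⟩
      rw [hval'.unique hval] at h'
      exact hout.1 h'
    · intro h'
      exact ⟨val, hval, hout.2 h'⟩
  have h1 : D.acceptProb P = 1 := by
    have : (Finset.univ.filter fun i => D.Accepts (P i)) = Finset.univ :=
      Finset.filter_true_of_mem fun i _ => (hacc _).2 (hP i)
    unfold Circuit.acceptProb
    rw [this, Finset.card_univ, Fintype.card_fin]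
    have hN' : (N : ℝ) ≠ 0 := by exact_mod_cast hN.ne'
    exact div_self hN'
  have h2 : D.acceptProb Q = 0 := by
    have : (Finset.univ.filter fun i => D.Accepts (Q i)) = ∅ :=
      Finset.filter_false_of_mem fun i _ hc => hQ i ((hacc _).1 hc)
    unfold Circuit.acceptProb
    rw [this]
    simp
  have h3 := h s le_rfl D
  rw [h1, h2, sub_zero, one_mul] at h3
  exact_mod_cast h3

end Pool.Agent.Results.MP_0a1b52_lc.AverageCase
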